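import Pool.Agent.H18.QGR.Stmts

/-!
Row ORT of the board `qgr`.
-/

set_option autoImplicit false

namespace Pool.QGR

open Pool.CGR

section
variable {m : ℕ} {A : Type} [Ring A] [Algebra ℂ A]

theorem ort_cn (x : Fin m → A) (j : Fin m) (f : E m) :
    evP x (cn j f) = x j * evP x f := by
  have h : (evP x).comp (cn j) = (LinearMap.mulLeft ℂ (x j)).comp (evP x) := by
    refine Finsupp.lhom_ext' fun w => LinearMap.ext_ring ?_
    simp [evP, cn, ev]
  exact LinearMap.congr_fun h f

theorem ort_sn (x : Fin m → A) (j : Fin m) (f : E m) :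
    evP x (sn j f) = evP x f * x j := by
  have h : (evP x).comp (sn j) = (LinearMap.mulRight ℂ (x j)).comp (evP x) := by
    refine Finsupp.lhom_ext' fun w => LinearMap.ext_ring ?_
    simp [evP, sn, ev]
  exact LinearMap.congr_fun h f

theorem ort_tau (q : Fin m → Fin m → ℝ) (τ : A →ₗ[ℂ] ℂ) (x : Fin m → A) (hL : Law q τ x)
    (f : E m) : τ (evP x f) = Ph q f [] := by
  have h : τ.comp (evP x) = (Finsupp.lapply []).comp (Ph q) := by
    refine Finsupp.lhom_ext' fun w => LinearMap.ext_ring ?_
    simp [evP, Ph, hL w]
  exact LinearMap.congr_fun h f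

/-- `x_j W_v` -/
theorem ort_left (q : Fin m → Fin m → ℝ) (x : Fin m → A) (j : Fin m) (v : List (Fin m)) :
    x j * evP x (Wk q v) = evP x (Wk q (j :: v)) + ∑ k ∈ Finset.range v.length,
      if v[k]? = some j then om q j (v.take k) • evP x (Wk q (v.eraseIdx k)) else 0 := by
  rw [Wk, map_sub, ort_cn, map_sum]
  have e : ∀ k ∈ Finset.range v.length,
      evP x (if v[k]? = some j then om q j (v.take k) • Wk q (v.eraseIdx k) else 0) =
      if v[k]? = some j then om q j (v.take k) • evP x (Wk q (v.eraseIdx k)) else 0 := by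
    intro k _
    split_ifs with h
    · rw [map_smul]
    · simp
  rw [Finset.sum_congr rfl e, sub_add_cancel]

/-- `W_w x_j` -/
theorem ort_right (hW : WXRStmt) (q : Fin m → Fin m → ℝ) (hq : ∀ i j, q i j = q j i)
    (x : Fin m → A) (j : Fin m) (w : List (Fin m)) :
    evP x (Wk q w) * x j = evP x (Wk q (w ++ [j])) + ∑ k ∈ Finset.range w.length,
      if w[k]? = some j then om q j (w.drop (k + 1)) • evP x (Wk q (w.eraseIdx k)) else 0 := by
  rw [← ort_sn, hW m q hq j w, map_add, map_sum]
  congr 1
  refine Finset.sum_congr rfl fun k _ => ?_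
  split_ifs with h
  · rw [map_smul]
  · simp

/-- the recursion -/
theorem ort_rec (hW : WXRStmt) (q : Fin m → Fin m → ℝ) (hq : ∀ i j, q i j = q j i)
    (τ : A →ₗ[ℂ] ℂ) (x : Fin m → A) (j : Fin m) (w v : List (Fin m)) :
    τ (evP x (Wk q (w ++ [j])) * evP x (Wk q v)) = τ (evP x (Wk q w) * evP x (Wk q (j :: v))) +
      (∑ k ∈ Finset.range v.length, if v[k]? = some j then
        om q j (v.take k) * τ (evP x (Wk q w) * evP x (Wk q (v.eraseIdx k))) else 0) -
      ∑ k ∈ Finset.range w.length, if w[k]? = some j then
        om q j (w.drop (k + 1)) * τ (evP x (Wk q (w.eraseIdx k)) * evP x (Wk q v)) else 0 := by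
  have h1 := congrArg (fun a => τ (evP x (Wk q w) * a)) (ort_left q x j v)
  have h2 := congrArg (fun a => τ (a * evP x (Wk q v))) (ort_right hW q hq x j w)
  simp only [mul_add, add_mul, map_add, Finset.mul_sum, Finset.sum_mul, map_sum] at h1 h2
  have e1 : ∀ k ∈ Finset.range v.length,
      τ (evP x (Wk q w) * if v[k]? = some j then
        om q j (v.take k) • evP x (Wk q (v.eraseIdx k)) else 0) =
      if v[k]? = some j then
        om q j (v.take k) * τ (evP x (Wk q w) * evP x (Wk q (v.eraseIdx k))) else 0 := by
    intro k _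
    split_ifs with h
    · rw [mul_smul_comm, map_smul, smul_eq_mul]
    · simp
  have e2 : ∀ k ∈ Finset.range w.length,
      τ ((if w[k]? = some j then
        om q j (w.drop (k + 1)) • evP x (Wk q (w.eraseIdx k)) else 0) * evP x (Wk q v)) =
      if w[k]? = some j then
        om q j (w.drop (k + 1)) * τ (evP x (Wk q (w.eraseIdx k)) * evP x (Wk q v)) else 0 := by
    intro k _
    split_ifs with h
    · rw [smul_mul_assoc, map_smul, smul_eq_mul]
    · simp
  rw [Finset.sum_congr rfl e1] at h1
  rw [Finset.sum_congr rfl e2] at h2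
  rw [mul_assoc] at h2
  rw [← h1, h2]
  ring

theorem ort_lt (hW : WXRStmt) (hP : WKFStmt) (q : Fin m → Fin m → ℝ)
    (hq : ∀ i j, q i j = q j i) (τ : A →ₗ[ℂ] ℂ) (x : Fin m → A) (hL : Law q τ x) :
    ∀ w v : List (Fin m), w.length < v.length →
      τ (evP x (Wk q w) * evP x (Wk q v)) = 0 := by
  intro w
  induction hn : w.length using Nat.strong_induction_on generalizing w with
  | _ n ih =>
    intro v hv
    rcases List.eq_nil_or_concat w with rfl | ⟨w, j, rfl⟩
    · have h1 : evP x (Wk q ([] : List (Fin m))) = 1 := by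
        rw [Wk]; simp [evP, ev]
      have hv' : v ≠ [] := by
        rintro rfl
        simp at hv
      rw [h1, one_mul, ort_tau q τ x hL, hP m q v]
      exact Finsupp.single_eq_of_ne (Ne.symm hv')
    · simp only [List.concat_eq_append, List.length_append, List.length_cons, List.length_nil,
        zero_add] at hn
      rw [List.concat_eq_append, ort_rec hW q hq τ x j w v]
      rw [ih w.length (by omega) w rfl (j :: v) (by simp only [List.length_cons]; omega)]
      rw [Finset.sum_eq_zero, Finset.sum_eq_zero]
      · ring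
      · intro k hk
        split_ifs with h
        · have h3 := List.length_eraseIdx_le w k
          rw [ih (w.eraseIdx k).length (by omega) _ rfl v (by omega), mul_zero]
        · rfl
      · intro k hk
        split_ifs with h
        · have h3 : (v.eraseIdx k).length = v.length - 1 :=
            List.length_eraseIdx_of_lt (Finset.mem_range.1 hk)
          rw [ih w.length (by omega) _ rfl (v.eraseIdx k) (by omega), mul_zero]
        · rfl

end

theorem ort_thm (hW : WXRStmt) (hP : WKFStmt) : ORTStmt := by
  intro m q hq A _ _ τ hτ x hL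
  constructor
  · intro w v h
    rcases lt_or_gt_of_ne h with h | h
    · exact ort_lt hW hP q hq τ x hL w v h
    · rw [hτ]
      exact ort_lt hW hP q hq τ x hL v w h
  · intro j w v h
    rw [ort_rec hW q hq τ x j w v,
      ort_lt hW hP q hq τ x hL w (j :: v) (by simp only [List.length_cons]; omega), zero_add]
    rw [Finset.sum_eq_zero (s := Finset.range w.length), sub_zero]
    intro k hk
    split_ifs with h'
    · have h3 := List.length_eraseIdx_le w k
      rw [ort_lt hW hP q hq τ x hL (w.eraseIdx k) v (by omega), mul_zero]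
    · rfl

end Pool.QGR
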