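import Pool.Agent.H18.QGR.Stmts

/-!
Row WKF of the board `qgr`.
-/

set_option autoImplicit false

namespace Pool.QGR

open Pool.CGR

theorem wkf_cn {m : ℕ} (q : Fin m → Fin m → ℝ) (j : Fin m) (f : E m) :
    Ph q (cn j f) = X q j (Ph q f) := by
  have h : (Ph q).comp (cn j) = (X q j).comp (Ph q) := by
    refine Finsupp.lhom_ext' fun w => LinearMap.ext_ring ?_
    simp [Ph, cn, Fk]
  exact LinearMap.congr_fun h f

theorem wkf_thm : WKFStmt := by
  intro m q w
  induction hn : w.length using Nat.strong_induction_on generalizing w with
  | _ n ih =>
    cases w with
    | nil =>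
      rw [Wk]
      simp [Ph, Fk]
    | cons j w =>
      simp only [List.length_cons] at hn
      rw [Wk, map_sub, wkf_cn, ih w.length (by omega) w rfl, map_sum]
      have e : ∀ k ∈ Finset.range w.length,
          Ph q (if w[k]? = some j then om q j (w.take k) • Wk q (w.eraseIdx k) else 0) =
          if w[k]? = some j then Finsupp.single (w.eraseIdx k) (om q j (w.take k)) else 0 := by
        intro k hk
        split_ifs with h
        · have := List.length_eraseIdx_le w k
          rw [map_smul, ih (w.eraseIdx k).length (by omega) _ rfl, Finsupp.smul_single,
            smul_eq_mul, mul_one]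
        · simp
      rw [Finset.sum_congr rfl e]
      have hX : X q j (Finsupp.single w 1) = Finsupp.single (j :: w) 1 +
          ∑ k ∈ Finset.range w.length,
            if w[k]? = some j then Finsupp.single (w.eraseIdx k) (om q j (w.take k)) else 0 := by
        simp only [X, LinearMap.add_apply, cn, an, Finsupp.lmapDomain_apply,
          Finsupp.mapDomain_single, Finsupp.linearCombination_single, one_smul]
      rw [hX, add_sub_cancel_right]

end Pool.QGR
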